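import Pool.Agent.R583.UP.Ultra

/-!
# A partial order without an embedding in the ultrapower
-/

set_option autoImplicit false
set_option linter.unusedSectionVars false

namespace Pool.Agent.R583.UP

open Cardinal MeasureTheory Set Filter
open Pool.Agent.TH773.PSet Pool.Agent.R593.Rnd Pool.Agent.R592.Ent Pool.Agent.R592.Hd

variable {J W K : Type}

/-! ### The continuum is large -/

theorem measure_agree_le (k k' : K) (hk : k ≠ k') (N : ℕ) :
    coinProduct K {x | ∀ j ∈ Finset.range N, x (k, j) = x (k', j)} ≤ (2 : ENNReal)⁻¹ ^ N := by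
  classical
  let pat : K → Finset ℕ → Set (K × ℕ → Bool) := fun i s =>
    {x | ∀ j ∈ Finset.range N, x (i, j) = decide (j ∈ s)}
  have h1 : {x : K × ℕ → Bool | ∀ j ∈ Finset.range N, x (k, j) = x (k', j)} ⊆
      ⋃ s ∈ (Finset.range N).powerset, (pat k s ∩ pat k' s) := by
    intro x hx
    refine mem_iUnion₂.2 ⟨(Finset.range N).filter fun j => x (k, j) = true,
      Finset.mem_powerset.2 (Finset.filter_subset _ _), fun j hj => ?_, fun j hj => ?_⟩
    · by_cases h : x (k, j) = true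
      · rw [h]
        exact (decide_eq_true (Finset.mem_filter.2 ⟨hj, h⟩)).symm
      · rw [Bool.not_eq_true] at h
        rw [h]
        refine (decide_eq_false fun h' => ?_).symm
        rw [Finset.mem_filter, h] at h'
        exact Bool.false_ne_true h'.2
    · rw [← hx j hj]
      by_cases h : x (k, j) = true
      · rw [h]
        exact (decide_eq_true (Finset.mem_filter.2 ⟨hj, h⟩)).symm
      · rw [Bool.not_eq_true] at h
        rw [h]
        refine (decide_eq_false fun h' => ?_).symm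
        rw [Finset.mem_filter, h] at h'
        exact Bool.false_ne_true h'.2
  have h2 : ∀ s, coinProduct K (pat k s ∩ pat k' s) = (2 : ENNReal)⁻¹ ^ N * (2 : ENNReal)⁻¹ ^ N := by
    intro s
    have hd : Disjoint {t : K × ℕ | t.1 = k} {t : K × ℕ | t.1 = k'} := by
      rw [Set.disjoint_left]
      intro t h h'
      exact hk (h.symm.trans h')
    rw [dep_indep hd (dep_pattern k _ fun j => decide (j ∈ s))
      (dep_pattern k' _ fun j => decide (j ∈ s)), measure_pattern, measure_pattern,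
      Finset.card_range]
  calc coinProduct K {x | ∀ j ∈ Finset.range N, x (k, j) = x (k', j)}
      ≤ coinProduct K (⋃ s ∈ (Finset.range N).powerset, (pat k s ∩ pat k' s)) := measure_mono h1
    _ ≤ ∑ s ∈ (Finset.range N).powerset, coinProduct K (pat k s ∩ pat k' s) :=
      measure_biUnion_finset_le _ _
    _ = 2 ^ N * ((2 : ENNReal)⁻¹ ^ N * (2 : ENNReal)⁻¹ ^ N) := by
      rw [Finset.sum_congr rfl fun s _ => h2 s, Finset.sum_const, Finset.card_powerset,
        Finset.card_range, nsmul_eq_mul]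
      norm_num
    _ = (2 : ENNReal)⁻¹ ^ N := by
      rw [← mul_assoc, ← mul_pow, ENNReal.mul_inv_cancel (by norm_num) (by norm_num), one_pow,
        one_mul]

theorem null_agree (k k' : K) (hk : k ≠ k') :
    coinProduct K {x | ∀ j : ℕ, x (k, j) = x (k', j)} = 0 := by
  refine le_antisymm ?_ bot_le
  refine ge_of_tendsto' (ENNReal.tendsto_pow_atTop_nhds_zero_of_lt_one
    (r := (2 : ENNReal)⁻¹) (by norm_num)) fun N => ?_
  refine (measure_mono ?_).trans (measure_agree_le k k' hk N)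
  intro x hx j _
  exact hx j

theorem leContinuum {Y : Type} (e : Y → K) (he : Function.Injective e)
    (p : Add J W × Random K) : p ∈ LeContinuum (Add J W × Random K) Y := by
  refine mem_fex_of (fun y n => lft J W (rr (e y) n)) fun q _ y y' hne r _ hr => ?_
  have h1 : ∀ n, ∀ s ≤ r, s.2 ∈ AE (coinProduct K) (rr (e y) n) ↔
      s.2 ∈ AE (coinProduct K) (rr (e y') n) := by
    intro n s hs
    have := meets_of_same hr hs n
    rw [meets_lft (measurable_rr _ _), meets_lft (measurable_rr _ _)] at this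
    exact this
  have h2 : ∀ n (i i' : K), (∀ s ≤ r, s.2 ∈ AE (coinProduct K) (rr i n) →
      s.2 ∈ AE (coinProduct K) (rr i' n)) →
      ∀ᵐ x ∂(coinProduct K), x ∈ r.2.1 → x (i, n) = true → x (i', n) = true := by
    intro n i i' h
    have hm : MeasurableSet (rr i n ∩ (rr i' n)ᶜ) :=
      (measurable_rr i n).inter (measurable_rr i' n).compl
    have h0 : coinProduct K (r.2.1 ∩ (rr i n ∩ (rr i' n)ᶜ)) = 0 := by
      by_contra hpos
      have h3 := restr_mem r.2 _ hm hpos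
      rw [← fand_AE] at h3
      exact not_AE_compl (h (r.1, restr r.2 _ hm hpos) ⟨le_rfl, restr_le r.2 _ hm hpos⟩ h3.1) h3.2
    filter_upwards [measure_eq_zero_iff_ae_notMem.1 h0] with x hx hr hi
    by_contra hi'
    exact hx ⟨hr, hi, hi'⟩
  have h3 : ∀ᵐ x ∂(coinProduct K), x ∈ r.2.1 → ∀ n, x (e y, n) = x (e y', n) := by
    have g1 := ae_all_iff.2 fun n => h2 n (e y) (e y') fun s hs => (h1 n s hs).1
    have g2 := ae_all_iff.2 fun n => h2 n (e y') (e y) fun s hs => (h1 n s hs).2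
    filter_upwards [g1, g2] with x f1 f2 hx n
    rw [Bool.eq_iff_iff]
    exact ⟨f1 n hx, f2 n hx⟩
  apply r.2.2.2
  refine measure_eq_zero_iff_ae_notMem.2 ?_
  filter_upwards [h3, measure_eq_zero_iff_ae_notMem.1 (null_agree _ _ fun h => hne (he h))]
    with x g1 g2 hx
  exact g2 (g1 hx)

/-! ### Subsets of `W` -/

/-- the condition with a given code -/
noncomputable def cd (z : Option ((ℕ → W × W) × (ℕ → J))) : Add J W :=
  z.elim (emp fun t => t.2) fun z => cnd z.1 z.2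

theorem exists_code (a : Add J W) : ∃ z, cd z ≤ a ∧ a ≤ cd z := by
  classical
  rcases a.dom.eq_empty_or_nonempty with h | h
  · refine ⟨none, ⟨?_, fun t ht => ?_⟩, le_emp _ _⟩
    · rw [h]
      exact empty_subset _
    · rw [h] at ht
      exact ht.elim
  · obtain ⟨u, hu⟩ := a.ctb.exists_eq_range h
    refine ⟨some (fun n => ((u n).2, a.val (u n)), fun n => (u n).1), ?_⟩
    have h1 : (cnd (fun n => ((u n).2, a.val (u n))) fun n => (u n).1).dom = a.dom := by
      rw [hu]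
      rfl
    have h2 : ∀ t ∈ a.dom, (cnd (fun n => ((u n).2, a.val (u n))) fun n => (u n).1).val t =
        a.val t := by
      intro t ht
      rw [hu] at ht
      have h3 : ∃ n, (((u n).1, (u n).2) : J × W) = t := ht
      show (if h : ∃ n, (((u n).1, (u n).2) : J × W) = t then a.val (u h.choose) else t.2) = _
      rw [dif_pos h3]
      congr 1
      exact h3.choose_spec
    refine ⟨⟨h1.ge, h2⟩, ⟨h1.le, fun t ht => (h2 t ?_).symm⟩⟩
    exact h1 ▸ ht

/-- the subset of `W` with a given code -/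
noncomputable def sub (z : W → Ind W → Option ((ℕ → W × W) × (ℕ → J)) ×
    {A : Set (K × ℕ → Bool) // MeasurableSet A}) (w : W) : Set (Add J W × Random K) :=
  {p | ∃ i, p.1 ≤ cd (z w i).1 ∧ p.2 ∈ AE (coinProduct K) (z w i).2.1}

theorem powerLe [Nonempty J] (hW : #W ≤ 𝔠) (hWne : Nonempty W) (hJK : #J ≤ #K) (h2 : 2 ≤ #K)
    (hpow : #K ^ 𝔠 = #K)
    {Y : Type} (hY : #Y = #K) (p : Add J W × Random K) :
    p ∈ PowerLe (Add J W × Random K) W Y := by
  classical
  have hcK : 𝔠 ≤ #K := by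
    rw [← hpow]
    calc 𝔠 ≤ 2 ^ 𝔠 := (cantor 𝔠).le
      _ ≤ #K ^ 𝔠 := power_le_power_right h2
  have hK0 : ℵ₀ ≤ #K := aleph0_le_continuum.trans hcK
  have hpow0 : #K ^ ℵ₀ = #K := by
    refine le_antisymm ?_ (self_le_power _ one_le_aleph0)
    calc #K ^ ℵ₀ ≤ #K ^ 𝔠 := power_le_power_left (ne_of_gt (by
          exact lt_of_lt_of_le aleph0_pos hK0)) aleph0_le_continuum
      _ = #K := hpow
  let C : Type := Option ((ℕ → W × W) × (ℕ → J)) × {A : Set (K × ℕ → Bool) // MeasurableSet A}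
  have hC : #C ≤ #K := by
    have g1 : #(Option ((ℕ → W × W) × (ℕ → J))) ≤ #K := by
      rw [mk_option, mk_prod, lift_id, lift_id]
      have g2 : #(ℕ → J) ≤ #K := by
        rw [mk_arrow, lift_id, lift_id, mk_nat]
        exact (power_le_power_right hJK).trans hpow0.le
      calc _ ≤ #K * #K + 1 := add_le_add_left (mul_le_mul' ((mk_fun hW).trans hcK) g2) 1
        _ = #K := by
          rw [mul_eq_self hK0, add_eq_left hK0 (one_le_aleph0.trans hK0)]
    rw [mk_prod, lift_id, lift_id]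
    calc _ ≤ #K * #K := mul_le_mul' g1 (mk_measurable hK0 hpow0)
      _ = #K := mul_eq_self hK0
  have hZ : #(W → Ind W → C) ≤ #Y := by
    rw [hY, mk_arrow, lift_id, lift_id, mk_arrow, lift_id, lift_id]
    calc (#C ^ #(Ind W)) ^ #W ≤ (#K ^ 𝔠) ^ #W := by
          refine power_le_power_right ((power_le_power_right hC).trans ?_)
          exact power_le_power_left (ne_of_gt (lt_of_lt_of_le aleph0_pos hK0)) (mk_ind hW)
      _ = #K ^ #W := by rw [hpow]
      _ ≤ #K ^ 𝔠 := power_le_power_left (ne_of_gt (lt_of_lt_of_le aleph0_pos hK0)) hW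
      _ = #K := hpow
  obtain ⟨g⟩ := hZ
  have hne : Nonempty (W → Ind W → C) := ⟨fun _ _ => (none, ⟨∅, MeasurableSet.empty⟩)⟩
  have hs : Function.Surjective (Function.invFun g) := Function.invFun_surjective g.injective
  refine mem_fex_of (fun y => sub (Function.invFun g y)) fun q _ X => ?_
  -- the code of `X`
  have h3 : ∀ w : W, ∃ d : Ind W → Add J W, (∀ i, ∃ E : Set (K × ℕ → Bool), MeasurableSet E ∧
      ∀ a'' ≤ d i, ∀ b, ((a'', b) ∈ meets (X w) ↔ b ∈ AE (coinProduct K) E)) ∧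
      ∀ a, ∃ i, Agree a (d i) :=
    fun w => exists_small (D := {a' : Add J W | ∃ E : Set (K × ℕ → Bool), MeasurableSet E ∧
      ∀ a'' ≤ a', ∀ b, ((a'', b) ∈ meets (X w) ↔ b ∈ AE (coinProduct K) E)})
      (decide1 (reg_meets (X w)))
  choose d hd hd' using h3
  choose E hE hE' using hd
  choose z hz hz' using fun (w : W) (i : Ind W) => exists_code (d w i)
  obtain ⟨y, hy⟩ := hs fun w i => (z w i, ⟨E w i, hE w i⟩)
  have h4 : ∀ w (p : Add J W × Random K), p ∈ meets (X w) ↔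
      p ∈ meets (sub (Function.invFun g y) w) := by
    intro w p
    rw [hy]
    constructor
    · intro hp r hr
      obtain ⟨i, hi⟩ := hd' w r.1
      obtain ⟨a', ha1, ha2, -⟩ := exists_glue2 hi
      have hle : (a', r.2) ≤ r := ⟨ha1, le_rfl⟩
      refine ⟨(a', r.2), hle, (a', r.2), ⟨i, ha2.trans (hz' w i), ?_⟩, le_rfl⟩
      exact (hE' w i a' ha2 r.2).1 ((reg_meets _).1 p hp _ (hle.trans hr))
    · intro hp
      refine (reg_meets _).2 p fun r hr => ?_
      obtain ⟨s, hs, t, ⟨i, hi, hi'⟩, hst⟩ := hp r hr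
      refine ⟨s, hs, (hE' w i s.1 (hst.1.trans (hi.trans (hz w i))) s.2).2 ?_⟩
      exact down_AE _ _ hi' _ hst.2
  refine mem_fex_of y fun r _ w => ⟨?_, ?_⟩
  · exact (mem_fimp_reg (reg_meets _).1 (reg_meets _)).2 fun s _ hs => (h4 w s).1 hs
  · exact (mem_fimp_reg (reg_meets _).1 (reg_meets _)).2 fun s _ hs => (h4 w s).2 hs

/-! ### The partial order -/

/-- The name of the partial order: the element `ξ` of `W` is below the element `j` of `J` if the
value of the `j`-th generic function at `ξ` is `w1`. -/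
def Ro {Y : Type} (e : Y ≃ W ⊕ J) (w1 : W) (x y : Y) : Set (Add J W × Random K) :=
  {p | x = y ∨ ∃ ξ j, e x = Sum.inl ξ ∧ e y = Sum.inr j ∧ (j, ξ) ∈ p.1.dom ∧ p.1.val (j, ξ) = w1}

theorem down_Ro {Y : Type} (e : Y ≃ W ⊕ J) (w1 : W) (x y : Y) :
    Down (Ro (K := K) e w1 x y) := by
  rintro p (h | ⟨ξ, j, h1, h2, h3, h4⟩) q hq
  · exact Or.inl h
  · exact Or.inr ⟨ξ, j, h1, h2, hq.1.1 h3, (hq.1.2 _ h3).trans h4⟩

theorem meets_of_mem {P : Type} [Preorder P] {N : Set P} (hN : Down N) {p : P} (hp : p ∈ N) :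
    p ∈ meets N := fun q hq => ⟨q, le_rfl, q, hN p hp q hq, le_rfl⟩

theorem mem_of_meets {P : Type} [Preorder P] {N : Set P} (hN : Down N) {p : P}
    (hp : p ∈ meets N) : ∃ q ≤ p, q ∈ N := by
  obtain ⟨q, hq, s, hs, hqs⟩ := hp p le_rfl
  exact ⟨q, hq, hN s hs q hqs⟩

theorem isOrder {Y : Type} (e : Y ≃ W ⊕ J) (w1 : W) (p : Add J W × Random K) :
    p ∈ IsOrder (Ro e w1) := by
  refine ⟨fun x => meets_of_mem (down_Ro e w1 x x) (Or.inl rfl), fun x y z => ?_,
    fun x y hne q _ hq => ?_⟩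
  · refine (mem_fimp_reg (down_fand (reg_meets _).1 (reg_meets _).1) (reg_meets _)).2
      fun q _ hq => (reg_meets _).2 q fun r hr => ?_
    obtain ⟨s, hs, hs'⟩ := mem_of_meets (down_Ro e w1 x y) ((reg_meets _).1 _ hq.1 r hr)
    obtain ⟨t, ht, ht'⟩ := mem_of_meets (down_Ro e w1 y z)
      ((reg_meets _).1 _ hq.2 s (hs.trans hr))
    refine ⟨t, ht.trans hs, meets_of_mem (down_Ro e w1 x z) ?_⟩
    have hs'' := down_Ro e w1 x y s hs' t ht
    rcases hs'' with h | ⟨ξ, j, h1, h2, -⟩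
    · rw [h]
      exact ht'
    · rcases ht' with h' | ⟨ξ', j', h1', -⟩
      · rw [← h']
        exact down_Ro e w1 x y s hs' t ht
      · rw [h2] at h1'
        cases h1'
  · obtain ⟨s, hs, hs'⟩ := mem_of_meets (down_Ro e w1 x y) hq.1
    obtain ⟨t, ht, ht'⟩ := mem_of_meets (down_Ro e w1 y x) ((reg_meets _).1 _ hq.2 s hs)
    rcases hs' with h | ⟨ξ, j, h1, h2, -⟩
    · exact hne h
    · rcases ht' with h | ⟨ξ', j', h1', -⟩
      · exact hne h.symm
      · rw [h2] at h1'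
        cases h1'

theorem AE_imp {A B : Set (K × ℕ → Bool)} (hA : MeasurableSet A) (hB : MeasurableSet B)
    {b : Random K} : (∀ b' ≤ b, b' ∈ AE (coinProduct K) A → b' ∈ AE (coinProduct K) B) ↔
      b ∈ AE (coinProduct K) (Aᶜ ∪ B) := by
  constructor
  · intro h
    rw [mem_AE]
    by_contra hne
    have hm : MeasurableSet (Aᶜ ∪ B)ᶜ := (hA.compl.union hB).compl
    have hne' : coinProduct K (b.1 ∩ (Aᶜ ∪ B)ᶜ) ≠ 0 := hne
    have h1 := restr_mem b _ hm hne'
    have h2 : restr b _ hm hne' ∈ AE (coinProduct K) A := by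
      rw [mem_AE_iff] at h1 ⊢
      filter_upwards [h1] with x hx hx'
      by_contra hA
      exact hx hx' (Or.inl hA)
    have h3 := h _ (restr_le b _ hm hne') h2
    refine not_AE_compl ?_ h1
    rw [mem_AE_iff] at h3 ⊢
    filter_upwards [h3] with x hx hx'
    exact Or.inr (hx hx')
  · intro h b' hb' hA'
    have h1 := down_AE _ _ h b' hb'
    rw [mem_AE_iff] at h1 hA' ⊢
    filter_upwards [h1, hA'] with x g1 g2 hx
    exact (g1 hx).resolve_left fun h => h (g2 hx)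

theorem not_embeds (hW : #W ≤ 𝔠) (hW' : ℵ₀ < #W) [Nonempty J] (hJ : 𝔠 < #J) {Y : Type}
    (e : Y ≃ W ⊕ J) {w0 w1 : W} (hne : w0 ≠ w1) (𝓤 : Set (Ev K)) (p : Add J W × Random K) :
    p ∈ fnot (fex fun f : Y → ℕ → RName (Add J W × Random K) =>
      Embeds (UN J W 𝓤) (Ro e w1) f) := by
  classical
  intro q _ hq
  obtain ⟨r, _, f, hf⟩ := mem_fex.1 hq q le_rfl
  -- the support of the values at the elements of `W`
  have h1 : ∀ ξ : W, ∃ d : Ind W → Add J W, (∀ i, ∃ E : ℕ → Set (K × ℕ → Bool), ∀ n,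
      MeasurableSet (E n) ∧ ∀ a'' ≤ d i, ∀ b,
        ((a'', b) ∈ meets (f (e.symm (Sum.inl ξ)) n.unpair.1 n.unpair.2) ↔
          b ∈ AE (coinProduct K) (E n))) ∧ ∀ a, ∃ i, Agree a (d i) :=
    fun ξ => exists_small (D := {a' : Add J W | ∃ E : ℕ → Set (K × ℕ → Bool), ∀ n,
      MeasurableSet (E n) ∧ ∀ a'' ≤ a', ∀ b,
        ((a'', b) ∈ meets (f (e.symm (Sum.inl ξ)) n.unpair.1 n.unpair.2) ↔
          b ∈ AE (coinProduct K) (E n))})
      (decide_seq (φ := fun n => meets (f (e.symm (Sum.inl ξ)) n.unpair.1 n.unpair.2))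
        fun n => reg_meets _)
  choose d hd hd' using h1
  let SS : Set J := ⋃ u : W × Ind W, Prod.fst '' (d u.1 u.2).dom
  obtain ⟨j, hj⟩ : ∃ j, j ∉ SS := by
    by_contra hcon
    push Not at hcon
    have h1 : #J ≤ #SS := by
      rw [eq_univ_of_forall hcon, mk_univ]
    have h2 : #SS ≤ #W * #(Ind W) * ℵ₀ := by
      refine (mk_iUnion_le_sum_mk).trans ((sum_le_sum _ (fun _ => ℵ₀) fun u => ?_).trans ?_)
      · exact ((d u.1 u.2).ctb.image _).le_aleph0
      · rw [sum_const', mk_prod]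
        simp only [lift_id]
        exact le_rfl
    refine absurd (h1.trans h2) (not_le.2 ?_)
    refine lt_of_le_of_lt (mul_le_mul' (mul_le_mul' hW (mk_ind hW)) le_rfl) ?_
    rw [continuum_mul_self]
    simpa using hJ
  -- the value at `j`
  obtain ⟨a1, ha1, F, hF⟩ := decide_seq
    (φ := fun n => meets (f (e.symm (Sum.inr j)) n.unpair.1 n.unpair.2)) (fun n => reg_meets _) r.1
  obtain ⟨ξ, hξ⟩ : ∃ ξ : W, (j, ξ) ∉ a1.dom := by
    by_contra hcon
    push Not at hcon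
    have h2 : (Set.univ : Set W).Countable := by
      refine (a1.ctb.image Prod.snd).mono ?_
      intro ξ _
      exact ⟨(j, ξ), hcon ξ, rfl⟩
    rw [countable_univ_iff, ← mk_le_aleph0_iff] at h2
    exact absurd h2 (not_le.2 hW')
  obtain ⟨i, hi⟩ := hd' ξ a1
  obtain ⟨a2, ha21, ha2d, hdom⟩ := exists_glue2 hi
  have hξ2 : (j, ξ) ∉ a2.dom := by
    intro h
    rcases hdom _ h with h | h
    · exact hξ h
    · exact hj (mem_iUnion.2 ⟨(ξ, i), (j, ξ), h, rfl⟩)
  obtain ⟨E, hE⟩ := hd ξ i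
  set x : Y := e.symm (Sum.inl ξ) with hx
  set y : Y := e.symm (Sum.inr j) with hy
  have hA : ∀ n m, ∀ a'' ≤ a2, ∀ b, ((a'', b) ∈ meets (f x n m) ↔
      b ∈ AE (coinProduct K) (E (Nat.pair n m))) := by
    intro n m a'' ha'' b
    have := (hE (Nat.pair n m)).2 a'' (ha''.trans ha2d) b
    simpa using this
  have hB : ∀ n m, ∀ a'' ≤ a2, ∀ b, ((a'', b) ∈ meets (f y n m) ↔
      b ∈ AE (coinProduct K) (F (Nat.pair n m))) := by
    intro n m a'' ha'' b
    have := (hF (Nat.pair n m)).2 a'' (ha''.trans ha21) b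
    simpa using this
  let S : ℕ → Set (K × ℕ → Bool) := fun n => ⋂ m, (E (Nat.pair n m))ᶜ ∪ F (Nat.pair n m)
  have hS : ∀ n, ∀ a'' ≤ a2, ∀ b, ((a'', b) ∈ Sub (f x n) (f y n) ↔
      b ∈ AE (coinProduct K) (S n)) := by
    intro n a'' ha'' b
    rw [← fall_AE]
    unfold TH773.PSet.Sub
    rw [mem_fall, mem_fall]
    refine forall_congr' fun m => ?_
    rw [mem_fimp_reg (reg_meets _).1 (reg_meets _), ← AE_imp (hE _).1 (hF _).1]
    constructor
    · intro h b' hb' hA'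
      have hle : (a'', b') ≤ (a'', b) := ⟨le_rfl, hb'⟩
      exact (hB n m a'' ha'' b').1 (h _ hle ((hA n m a'' ha'' b').2 hA'))
    · intro h t ht ht'
      have h2 := (hA n m t.1 (ht.1.trans ha'') t.2).1 ht'
      exact (hB n m t.1 (ht.1.trans ha'') t.2).2 (h t.2 ht.2 h2)
  let Ψ : Random K → Prop := fun b => ∃ C ∈ 𝓤, ∀ n, ∀ b' ≤ b,
    b' ∈ AE (coinProduct K) (C.1 n) → b' ∈ AE (coinProduct K) (S n)
  have hΨ : ∀ a'' ≤ a2, ∀ b, ((a'', b) ∈ UN J W 𝓤 (fun n => Sub (f x n) (f y n)) ↔ Ψ b) := by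
    intro a'' ha'' b
    constructor
    · rintro ⟨C, hC, h⟩
      refine ⟨C, hC, fun n b' hb' hn => ?_⟩
      have hle : (a'', b') ≤ (a'', b) := ⟨le_rfl, hb'⟩
      have h3 := h (a'', b') hle n hn
      refine (hS n a'' ha'' b').1 ((reg_sub _ _).2 _ fun s hs => ?_)
      obtain ⟨t, ht, ht'⟩ := mem_of_meets (reg_sub _ _).1 ((reg_meets _).1 _ h3 s hs)
      exact ⟨t, ht, ht'⟩
    · rintro ⟨C, hC, h⟩
      refine ⟨C, hC, fun t ht n hn => ?_⟩
      exact meets_of_mem (reg_sub _ _).1 ((hS n t.1 (ht.1.trans ha'') t.2).2 (h n t.2 ht.2 hn))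
  have hle2 : a2 ≤ r.1 := ha21.trans ha1
  by_cases hcase : ∃ b ≤ r.2, ∀ b1 ≤ b, ∃ b2 ≤ b1, Ψ b2
  · obtain ⟨b, hb, hb'⟩ := hcase
    obtain ⟨a3, ha3, ha3d, ha3v⟩ := exists_ext a2 _ hξ2 w0
    have hr3 : (a3, b) ≤ r := ⟨ha3.trans hle2, hb⟩
    have h3 : (a3, b) ∈ Below (UN J W 𝓤) (f x) (f y) := by
      refine mem_mem_UN.2 fun s hs => ?_
      obtain ⟨b2, hb2, hb2'⟩ := hb' s.2 hs.2
      exact ⟨(s.1, b2), ⟨le_rfl, hb2⟩, (hΨ s.1 (hs.1.trans ha3) b2).2 hb2'⟩
    obtain ⟨s, hs, hs'⟩ := mem_fimp.1 (hf x y).2 (a3, b) hr3 h3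
    obtain ⟨t, ht, ht'⟩ := mem_of_meets (down_Ro e w1 x y) hs'
    rcases ht' with h | ⟨ξ', j', g1, g2, g3, g4⟩
    · have := congrArg e h
      rw [hx, hy, e.apply_symm_apply, e.apply_symm_apply] at this
      cases this
    · rw [hx, e.apply_symm_apply] at g1
      rw [hy, e.apply_symm_apply] at g2
      cases g1
      cases g2
      apply hne
      rw [← g4, (ht.trans hs).1.2 _ ha3d, ha3v]
  · push Not at hcase
    obtain ⟨b, hb, hb'⟩ := hcase r.2 le_rfl
    obtain ⟨a3, ha3, ha3d, ha3v⟩ := exists_ext a2 _ hξ2 w1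
    have hr3 : (a3, b) ≤ r := ⟨ha3.trans hle2, hb⟩
    have h3 : (a3, b) ∈ meets (Ro (K := K) e w1 x y) := by
      refine meets_of_mem (down_Ro e w1 x y) (Or.inr ⟨ξ, j, ?_, ?_, ha3d, ha3v⟩)
      · rw [hx, e.apply_symm_apply]
      · rw [hy, e.apply_symm_apply]
    obtain ⟨s, hs, hs'⟩ := mem_fimp.1 (hf x y).1 (a3, b) hr3 h3
    obtain ⟨t, ht, ht'⟩ := mem_mem_UN.1 hs' s le_rfl
    exact hb' t.2 (ht.2.trans hs.2) ((hΨ t.1 ((ht.trans hs).1.trans ha3) t.2).1 ht')

/-! ### The model -/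

theorem mem_model (h2 : 2 ≤ #K) (hpow : #K ^ 𝔠 = #K)
    (p : Add K (ℕ → Bool) × Random K) :
    p ∈ Model (Add K (ℕ → Bool) × Random K) (ℕ → Bool) K := by
  have hcK : 𝔠 < #K := by
    rw [← hpow]
    calc 𝔠 < 2 ^ 𝔠 := cantor 𝔠
      _ ≤ #K ^ 𝔠 := power_le_power_right h2
  have hK0 : ℵ₀ ≤ #K := aleph0_le_continuum.trans hcK.le
  have hpow0 : #K ^ ℵ₀ = #K := by
    refine le_antisymm ?_ (self_le_power _ one_le_aleph0)
    calc #K ^ ℵ₀ ≤ #K ^ 𝔠 := power_le_power_left (ne_of_gt (by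
          exact lt_of_lt_of_le aleph0_pos hK0)) aleph0_le_continuum
      _ = #K := hpow
  have hW : #(ℕ → Bool) = 𝔠 := by simp
  have hKne : Nonempty K := mk_ne_zero_iff.1 (ne_of_gt (lt_of_lt_of_le aleph0_pos hK0))
  obtain ⟨e⟩ : Nonempty (K ≃ (ℕ → Bool) ⊕ K) := by
    rw [← Cardinal.eq, mk_sum, lift_id, lift_id, hW]
    exact (add_eq_right hK0 hcK.le).symm
  obtain ⟨𝓤, h𝓤⟩ := exists_maximal (K := K)
  refine ⟨continuumLe hK0 hpow0 rfl p, leContinuum id Function.injective_id p,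
    powerLe hW.le inferInstance le_rfl h2 hpow rfl p,
    mem_fex_of (UN K (ℕ → Bool) 𝓤) fun q _ => ⟨isUltra h𝓤 q, ?_⟩⟩
  refine mem_fex_of (Ro e fun _ => true) fun r _ => ⟨isOrder e _ r, ?_⟩
  refine not_embeds hW.le (by rw [hW]; exact aleph0_lt_continuum) hcK e
    (w0 := fun _ => false) ?_ 𝓤 r
  intro h
  exact Bool.false_ne_true (congrFun h 0)

theorem exists_set : ∃ K : Type, 2 ≤ #K ∧ #K ^ (𝔠 : Cardinal.{0}) = #K := by
  refine ⟨Set (ℕ → Bool), ?_, ?_⟩
  · rw [mk_set]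
    have hW : #(ℕ → Bool) = 𝔠 := by simp
    rw [hW]
    exact (nat_lt_continuum 2).le.trans (cantor 𝔠).le
  · rw [mk_set]
    have hW : #(ℕ → Bool) = 𝔠 := by simp
    rw [hW, ← power_mul, continuum_mul_self]

end Pool.Agent.R583.UP
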