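import Pool.Agent.R592.Hd.Ground
import Pool.Agent.TH773.PSet.Ground

/-!
# Sentences about ultrapowers of the power set of `ω`
-/

set_option autoImplicit false
set_option linter.unusedSectionVars false

namespace Pool.Agent.R583.UP

open Cardinal Set Filter
open Pool.Agent.TH773.PSet Pool.Agent.R593.Rnd Pool.Agent.R592.Ent

universe u v w

section Sentences

variable {P : Type u} [Preorder P]

/-- `φ` if and only if `ψ` -/
def fiff (φ ψ : Set P) : Set P := fand (fimp φ ψ) (fimp ψ φ)

variable (P) in
/-- The cardinality of `Y` is at most the continuum: there is a family of pairwise different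
subsets of `ω` which is indexed by `Y`. -/
def LeContinuum (Y : Type v) : Set P :=
  fex fun D : Y → RName P => fall fun y => fall fun y' => fall fun _ : y ≠ y' =>
    fnot (Same (D y) (D y'))

variable (P) in
/-- The cardinality of the power set of `W` is at most the cardinality of `Y`: there is a family of
subsets of `W` which is indexed by `Y` and contains every subset of `W`. -/
def PowerLe (W : Type w) (Y : Type v) : Set P :=
  fex fun D : Y → W → Set P => fall fun X : W → Set P => fex fun y => fall fun x : W =>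
    fiff (meets (X x)) (meets (D y x))

/-- The relation on `Y` named by `R` is a partial order. -/
def IsOrder {Y : Type v} (R : Y → Y → Set P) : Set P :=
  fand (fall fun x => meets (R x x))
    (fand (fall fun x => fall fun y => fall fun z =>
        fimp (fand (meets (R x y)) (meets (R y z))) (meets (R x z)))
      (fall fun x => fall fun y => fall fun _ : x ≠ y =>
        fnot (fand (meets (R x y)) (meets (R y x)))))

/-- For the sequences `A`, `B` of subsets of `ω` the set of the numbers `n` with `A n ⊆ B n`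
belongs to `U`. -/
def Below (U : FName P) (A B : ℕ → RName P) : Set P := Mem (fun n => Sub (A n) (B n)) U

/-- `f`, which sends the elements of `Y` to sequences of subsets of `ω`, is an order embedding of
the set `Y`, ordered by `R`, in the ultrapower of the power set of `ω` modulo `U`. -/
def Embeds (U : FName P) {Y : Type v} (R : Y → Y → Set P) (f : Y → ℕ → RName P) : Set P :=
  fall fun x => fall fun y => fiff (meets (R x y)) (Below U (f x) (f y))

variable (P) in
/-- The continuum is the cardinality of `Y`, the cardinality of the power set of `W` is at most the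
continuum, and there is a nonprincipal ultrafilter `U` on `ω` such that some partial order of the
set `Y` cannot be embedded in the ultrapower of the power set of `ω` modulo `U`. -/
def Model (W : Type w) (Y : Type v) : Set P :=
  fand (ContinuumLe P Y) (fand (LeContinuum P Y) (fand (PowerLe P W Y)
    (fex fun U : FName P => fand (IsUltra U) (fex fun R : Y → Y → Set P => fand (IsOrder R)
      (fnot (fex fun f : Y → ℕ → RName P => Embeds U R f))))))

end Sentences

/-- The partially ordered set `Q` is universal for the partially ordered sets of cardinality `κ`: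
every partially ordered set of cardinality `κ` has an order embedding in `Q`. -/
def Universal (κ : Cardinal.{0}) (Q : Type) [PartialOrder Q] : Prop :=
  ∀ (Y : Type) [PartialOrder Y], #Y = κ → Nonempty (Y ↪o Q)

/-- The ultrapower of the power set of `ω`, ordered by inclusion, modulo `u`. -/
abbrev Pow (u : Ultrafilter ℕ) : Type := Filter.Germ (u : Filter ℕ) (Set ℕ)

/-! ### The meaning of the sentences over the trivial forcing -/

theorem unit_fiff {φ ψ : Set Unit} : () ∈ fiff φ ψ ↔ (() ∈ φ ↔ () ∈ ψ) := by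
  unfold fiff
  rw [u_fand, u_fimp, u_fimp]
  exact ⟨fun h => ⟨h.1, h.2⟩, fun h => ⟨h.1, h.2⟩⟩

theorem unit_same' {A B : RName Unit} : () ∈ Same A B ↔ e A = e B := by
  unfold Same
  rw [u_fand, u_Sub, u_Sub]
  exact ⟨fun h => subset_antisymm h.1 h.2, fun h => ⟨h.subset, h.symm.subset⟩⟩

theorem unit_leContinuum {Y : Type} {p : Unit} : p ∈ LeContinuum Unit Y ↔ #Y ≤ 𝔠 := by
  have hc : #(Set ℕ) = 𝔠 := by
    rw [mk_set, mk_nat, two_power_aleph0]
  unfold LeContinuum
  show () ∈ _ ↔ _
  simp only [u_fex, u_fall, u_fnot, unit_same']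
  constructor
  · rintro ⟨D, hD⟩
    rw [← hc]
    refine ⟨⟨fun y => e (D y), fun y y' h => ?_⟩⟩
    by_contra hne
    exact hD y y' hne h
  · intro h
    rw [← hc] at h
    obtain ⟨g⟩ := h
    refine ⟨fun y => e.symm (g y), fun y y' hne h => hne (g.injective ?_)⟩
    rwa [e.apply_symm_apply, e.apply_symm_apply] at h

theorem unit_powerLe {W Y : Type} {p : Unit} : p ∈ PowerLe Unit W Y ↔ 2 ^ #W ≤ #Y := by
  unfold PowerLe
  show () ∈ _ ↔ _
  simp only [u_fex, u_fall, unit_fiff, u_meets]
  rw [← mk_set]
  constructor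
  · rintro ⟨D, hD⟩
    choose y hy using fun X : Set W => hD fun x => {_u | x ∈ X}
    refine ⟨⟨y, fun X X' h => ?_⟩⟩
    ext x
    have h1 := hy X x
    have h2 := hy X' x
    rw [h] at h1
    exact h1.trans h2.symm
  · rintro ⟨g⟩
    have hs : Function.Surjective (Function.invFun g) := Function.invFun_surjective g.injective
    refine ⟨fun y x => {_u | x ∈ Function.invFun g y}, fun X => ?_⟩
    obtain ⟨y, hy⟩ := hs {x | () ∈ X x}
    refine ⟨y, fun x => ?_⟩
    show () ∈ X x ↔ x ∈ Function.invFun g y
    rw [hy]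
    exact Iff.rfl

theorem unit_below {U : FName Unit} {A B : ℕ → RName Unit} :
    () ∈ Below U A B ↔ {n | e (A n) ⊆ e (B n)} ∈ e2 U := by
  unfold Below
  rw [u_Mem]
  have h1 : e (fun n => Sub (A n) (B n)) = {n | e (A n) ⊆ e (B n)} := by
    ext n
    rw [mem_e, u_Sub]
    exact Iff.rfl
  rw [h1]

theorem unit_model {W Y : Type} {p : Unit} : p ∈ Model Unit W Y ↔
    (#Y = 𝔠 ∧ 2 ^ #W ≤ (𝔠 : Cardinal.{0}) ∧ ∃ u : Ultrafilter ℕ, (∀ n, u ≠ pure n) ∧
      ∃ _ : PartialOrder Y, IsEmpty (Y ↪o Pow u)) := by
  unfold Model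
  rw [mem_fand, mem_fand, mem_fand, unit_continuumLe, unit_leContinuum, unit_powerLe]
  show (_ ∧ _ ∧ _ ∧ () ∈ _) ↔ _
  simp only [u_fex, u_fand, u_fnot, u_IsUltra]
  have key : ∀ (U : FName Unit) (u : Ultrafilter ℕ) (_ : ∀ S, S ∈ u ↔ S ∈ e2 U)
      (R : Y → Y → Set Unit) (o : PartialOrder Y) (_ : ∀ x y, () ∈ R x y ↔ x ≤ y),
      (∃ f : Y → ℕ → RName Unit, () ∈ Embeds U R f) ↔ Nonempty (Y ↪o Pow u) := by
    intro U u hu R o hR
    have h1 : ∀ f : Y → ℕ → RName Unit, () ∈ Embeds U R f ↔
        ∀ x y, (x ≤ y ↔ ((fun n => e (f x n) : ℕ → Set ℕ) : Pow u) ≤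
          ((fun n => e (f y n) : ℕ → Set ℕ) : Pow u)) := by
      intro f
      unfold Embeds
      simp only [u_fall, unit_fiff, u_meets, unit_below, hR]
      refine forall_congr' fun x => forall_congr' fun y => iff_congr Iff.rfl ?_
      rw [Filter.Germ.coe_le, ← hu]
      exact Iff.rfl
    constructor
    · rintro ⟨f, hf⟩
      rw [h1] at hf
      refine ⟨⟨⟨fun x => ((fun n => e (f x n) : ℕ → Set ℕ) : Pow u), fun x y hxy => ?_⟩, ?_⟩⟩
      · apply le_antisymm
        · exact (hf x y).2 hxy.le
        · exact (hf y x).2 hxy.ge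
      · intro x y
        exact (hf x y).symm
    · rintro ⟨g⟩
      have h2 : ∀ x, ∃ F : ℕ → Set ℕ, (F : Pow u) = g x := fun x => Quotient.exists_rep (g x)
      choose F hF using h2
      refine ⟨fun x n => e.symm (F x n), (h1 _).2 fun x y => ?_⟩
      simp only [e.apply_symm_apply]
      show x ≤ y ↔ ((F x : ℕ → Set ℕ) : Pow u) ≤ ((F y : ℕ → Set ℕ) : Pow u)
      rw [hF, hF]
      exact g.le_iff_le.symm
  constructor
  · rintro ⟨h1, h2, h3, U, hU, R, hR, hf⟩
    have h4 : #Y = 𝔠 := le_antisymm h2 h1
    refine ⟨h4, h3.trans h4.le, ?_⟩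
    obtain ⟨u, hu⟩ := exists_star hU
    unfold IsOrder at hR
    simp only [u_fand, u_fall, u_fimp, u_fnot, u_meets] at hR
    obtain ⟨hr, ht, ha⟩ := hR
    let o : PartialOrder Y :=
      { le := fun x y => () ∈ R x y
        le_refl := hr
        le_trans := fun x y z h h' => ht x y z ⟨h, h'⟩
        le_antisymm := fun x y h h' => by
          by_contra hne
          exact ha x y hne ⟨h, h'⟩ }
    refine ⟨u.1, u.2, o, ?_⟩
    rw [← not_nonempty_iff, ← key U u.1 hu R o fun x y => Iff.rfl]
    exact hf
  · rintro ⟨h1, h2, u, hu, o, ho⟩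
    refine ⟨h1.ge, h1.le, h2.trans h1.ge, e2.symm {S | S ∈ u}, ?_, fun x y => {_u | x ≤ y}, ?_, ?_⟩
    · rw [e2.apply_symm_apply]
      exact cu_star ⟨u, hu⟩
    · unfold IsOrder
      simp only [u_fand, u_fall, u_fimp, u_fnot, u_meets]
      refine ⟨fun x => le_refl x, fun x y z h => le_trans h.1 h.2, fun x y hne h => hne ?_⟩
      exact le_antisymm h.1 h.2
    · rw [key _ u (fun S => ?_) _ o fun x y => Iff.rfl]
      · exact not_nonempty_iff.2 ho
      · rw [e2.apply_symm_apply]
        exact Iff.rfl

theorem not_universal {W Y : Type} {p : Unit} (h : p ∈ Model Unit W Y) :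
    ∃ u : Ultrafilter ℕ, (∀ n, u ≠ pure n) ∧ ¬ Universal 𝔠 (Pow u) := by
  obtain ⟨h1, -, u, hu, o, ho⟩ := unit_model.1 h
  exact ⟨u, hu, fun h => not_nonempty_iff.2 ho (@h Y o h1)⟩

end Pool.Agent.R583.UP
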