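import Pool.Agent.R583.UP.Sent
import Pool.Agent.R592.Hd.Force

/-!
# An ultrafilter of the random extension
-/

set_option autoImplicit false
set_option linter.unusedSectionVars false

namespace Pool.Agent.R583.UP

open Cardinal MeasureTheory Set Filter
open Pool.Agent.TH773.PSet Pool.Agent.R593.Rnd Pool.Agent.R592.Ent Pool.Agent.R592.Hd

/-- sequences of events: the names of the subsets of `ω` of the random extension -/
abbrev Ev (K : Type) : Type := {A : ℕ → Set (K × ℕ → Bool) // ∀ n, MeasurableSet (A n)}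

variable {J W K : Type}

/-- It is forced that all finite intersections of members of the family are infinite. -/
def Fip (𝓤 : Set (Ev K)) : Prop :=
  ∀ L : Finset (Ev K), ↑L ⊆ 𝓤 → ∀ N : ℕ,
    ∀ᵐ x ∂(coinProduct K), ∃ n, N ≤ n ∧ ∀ A ∈ L, x ∈ A.1 n

theorem exists_maximal : ∃ 𝓤 : Set (Ev K), Maximal Fip 𝓤 := by
  classical
  obtain ⟨m, -, hm⟩ := zorn_subset_nonempty {𝓤 : Set (Ev K) | Fip 𝓤} (by
    intro c hc hchain hne
    refine ⟨⋃₀ c, fun L hL N => ?_, fun s hs => subset_sUnion_of_mem hs⟩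
    have h1 : ∀ L : Finset (Ev K), ↑L ⊆ ⋃₀ c → ∃ s ∈ c, ↑L ⊆ s := by
      intro L
      induction L using Finset.induction_on with
      | empty =>
        intro _
        obtain ⟨s, hs⟩ := hne
        exact ⟨s, hs, by simp⟩
      | insert a L ha ih =>
        intro h
        rw [Finset.coe_insert, insert_subset_iff] at h
        obtain ⟨⟨s, hs, has⟩, h2⟩ := h
        obtain ⟨t, ht, hLt⟩ := ih h2
        rcases hchain.total hs ht with h | h
        · exact ⟨t, ht, by rw [Finset.coe_insert]; exact insert_subset (h has) hLt⟩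
        · exact ⟨s, hs, by rw [Finset.coe_insert]; exact insert_subset has (hLt.trans h)⟩
    obtain ⟨s, hs, hLs⟩ := h1 L hL
    exact hc hs L hLs N) ∅ (by
    intro L hL N
    have : L = ∅ := by
      rw [← Finset.coe_eq_empty]
      exact subset_empty_iff.1 hL
    rw [this]
    exact ae_of_all _ fun x => ⟨N, le_rfl, by simp⟩)
  exact ⟨m, hm⟩

/-- the numbers above `N` which are in all members of `L` -/
def meet (L : Finset (Ev K)) (N : ℕ) : Ev K :=
  ⟨fun n => {x | N ≤ n ∧ ∀ A ∈ L, x ∈ A.1 n}, fun n => by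
    have : {x : K × ℕ → Bool | N ≤ n ∧ ∀ A ∈ L, x ∈ A.1 n} =
        {_x | N ≤ n} ∩ ⋂ A ∈ L, A.1 n := by
      ext x
      simp
    show MeasurableSet {x : K × ℕ → Bool | N ≤ n ∧ ∀ A ∈ L, x ∈ A.1 n}
    rw [this]
    exact (MeasurableSet.const _).inter (Finset.measurableSet_biInter L fun A _ => A.2 n)⟩

theorem not_mem {𝓤 : Set (Ev K)} (hm : Maximal Fip 𝓤) {B : Ev K} (hB : B ∉ 𝓤) :
    ∃ L : Finset (Ev K), ↑L ⊆ 𝓤 ∧ ∃ N : ℕ, ¬ ∀ᵐ x ∂(coinProduct K),
      ∃ n, x ∈ B.1 n ∧ x ∈ (meet L N).1 n := by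
  classical
  by_contra hcon
  push Not at hcon
  apply hB
  refine hm.le_of_ge (y := insert B 𝓤) (fun L hL N => ?_) (subset_insert _ _) (mem_insert _ _)
  have h1 : ↑(L.erase B) ⊆ 𝓤 := by
    intro A hA
    rw [Finset.mem_coe, Finset.mem_erase] at hA
    exact (hL hA.2).resolve_left hA.1
  filter_upwards [hcon (L.erase B) h1 N] with x ⟨n, hn, hN, hL⟩
  refine ⟨n, hN, fun A hA => ?_⟩
  by_cases h : A = B
  · rw [h]
    exact hn
  · exact hL A (Finset.mem_erase.2 ⟨h, hA⟩)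

theorem meet_mem {𝓤 : Set (Ev K)} (hm : Maximal Fip 𝓤) (L : Finset (Ev K)) (hL : ↑L ⊆ 𝓤)
    (N : ℕ) : meet L N ∈ 𝓤 := by
  classical
  by_contra h
  obtain ⟨L', hL', N', h'⟩ := not_mem hm h
  apply h'
  filter_upwards [hm.prop (L ∪ L') (by rw [Finset.coe_union]; exact union_subset hL hL')
    (max N N')] with x ⟨n, hn, hx⟩
  exact ⟨n, ⟨(le_max_left _ _).trans hn, fun A hA => hx A (Finset.mem_union_left _ hA)⟩,
    ⟨(le_max_right _ _).trans hn, fun A hA => hx A (Finset.mem_union_right _ hA)⟩⟩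

variable (J W) in
/-- the name of the ultrafilter -/
def UN (𝓤 : Set (Ev K)) : FName (Add J W × Random K) := fun X =>
  {p | ∃ A ∈ 𝓤, ∀ q ≤ p, ∀ n, q.2 ∈ AE (coinProduct K) (A.1 n) → q ∈ meets (X n)}

theorem down_UN (𝓤 : Set (Ev K)) (X : RName (Add J W × Random K)) : Down (UN J W 𝓤 X) := by
  rintro p ⟨A, hA, h⟩ q hq
  exact ⟨A, hA, fun r hr => h r (hr.trans hq)⟩

theorem mem_mem_UN {𝓤 : Set (Ev K)} {X : RName (Add J W × Random K)}
    {p : Add J W × Random K} : p ∈ Mem X (UN J W 𝓤) ↔ ∀ q ≤ p, ∃ r ≤ q, r ∈ UN J W 𝓤 X := by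
  unfold Mem
  rw [mem_fex]
  constructor
  · intro h q hq
    obtain ⟨r, hr, B, hB, hB'⟩ := h q hq
    obtain ⟨s, hs, t, ht, hst⟩ := hB' r le_rfl
    obtain ⟨A, hA, hA'⟩ := down_UN 𝓤 B t ht s hst
    refine ⟨s, hs.trans hr, A, hA, fun q' hq' n hn => ?_⟩
    exact (meets_of_same hB (hq'.trans hs) n).2 (hA' q' hq' n hn)
  · intro h q hq
    obtain ⟨r, hr, hr'⟩ := h q hq
    refine ⟨r, hr, X, same_of fun _ _ _ => Iff.rfl, fun s hs => ?_⟩
    exact ⟨s, le_rfl, s, down_UN 𝓤 X r hr' s hs, le_rfl⟩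

theorem mem_of_UN {𝓤 : Set (Ev K)} {X : RName (Add J W × Random K)}
    {p : Add J W × Random K} (h : p ∈ UN J W 𝓤 X) : p ∈ Mem X (UN J W 𝓤) :=
  mem_mem_UN.2 fun q hq => ⟨q, le_rfl, down_UN 𝓤 X p h q hq⟩

theorem isUltra {𝓤 : Set (Ev K)} (hm : Maximal Fip 𝓤) (p : Add J W × Random K) :
    p ∈ IsUltra (UN J W 𝓤) := by
  classical
  refine ⟨⟨?_, ?_, ?_, ?_⟩, ?_⟩
  · refine mem_fex_of (fun _ => Set.univ) fun q _ => mem_of_UN ?_
    exact ⟨meet ∅ 0, meet_mem hm ∅ (by simp) 0, fun r _ n _ s hs =>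
      ⟨s, le_rfl, s, trivial, le_rfl⟩⟩
  · intro X
    refine (mem_fimp_reg (reg_mem _ _).1 (reg_inf _)).2 fun q _ hq N => mem_fex.2 fun r hr => ?_
    obtain ⟨s, hs, A, hA, hA'⟩ := mem_mem_UN.1 hq r hr
    have h1 : s.2 ∈ AE (coinProduct K) (⋃ n, (meet {A} N).1 n) := by
      rw [mem_AE_iff]
      filter_upwards [hm.prop {A} (by simpa using hA) N] with x ⟨n, hn, hx⟩ _
      exact mem_iUnion.2 ⟨n, hn, hx⟩
    obtain ⟨n, hn⟩ := exists_pos h1
    have h2 := restr_mem s.2 _ ((meet {A} N).2 n) hn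
    have h3 : N ≤ n := by
      by_contra h
      apply hn
      have : (meet {A} N).1 n = ∅ := by
        ext x
        simp only [meet, mem_ofPred_eq, mem_empty_iff_false, iff_false]
        exact fun h' => h h'.1
      rw [this, inter_empty, measure_empty]
    have h5 : (s.1, restr s.2 _ ((meet {A} N).2 n) hn) ≤ s :=
      ⟨le_rfl, restr_le s.2 _ ((meet {A} N).2 n) hn⟩
    refine ⟨(s.1, restr s.2 _ ((meet {A} N).2 n) hn), h5.trans hs, n,
      mem_fex_of h3 fun t ht => ?_⟩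
    refine hA' t (ht.trans h5) n ?_
    have h4 := down_AE _ _ h2 t.2 ht.2
    rw [mem_AE_iff] at h4 ⊢
    filter_upwards [h4] with x hx hxt
    exact (hx hxt).2 A (by simp)
  · intro X Y
    refine (mem_fimp_reg (down_fand (reg_mem _ _).1 (reg_almostSub _ _).1)
      (reg_mem _ _)).2 fun q _ hq => mem_mem_UN.2 fun r hr => ?_
    obtain ⟨s, hs, A, hA, hA'⟩ := mem_mem_UN.1 hq.1 r hr
    obtain ⟨t, ht, N, hN⟩ := mem_fex.1 hq.2 s (hs.trans hr)
    refine ⟨t, ht.trans hs, meet {A} N, meet_mem hm _ (by simpa using hA) N, fun q' hq' n hn => ?_⟩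
    have h3 : N ≤ n := by
      by_contra h
      apply q'.2.2.2
      refine measure_eq_zero_iff_ae_notMem.2 ?_
      rw [mem_AE_iff] at hn
      filter_upwards [hn] with x hx hx'
      exact h (hx hx').1
    refine (mem_fimp_reg (reg_meets _).1 (reg_meets _)).1 (hN n h3) q' hq' ?_
    refine hA' q' (hq'.trans ht) n ?_
    rw [mem_AE_iff] at hn ⊢
    filter_upwards [hn] with x hx hx'
    exact (hx hx').2 A (by simp)
  · intro X Y
    refine (mem_fimp_reg (down_fand (reg_mem _ _).1 (reg_mem _ _).1) (reg_fex _)).2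
      fun q _ hq => mem_fex_of (fun n => fand (meets (X n)) (meets (Y n))) fun r hr => ?_
    have hreg : ∀ n, Reg (fand (meets (X n)) (meets (Y n))) :=
      fun n => reg_fand (reg_meets _) (reg_meets _)
    have hmeets : ∀ n, ∀ s, s ∈ meets (fand (meets (X n)) (meets (Y n))) →
        s ∈ fand (meets (X n)) (meets (Y n)) := by
      intro n s hs
      refine (hreg n).2 s fun s' hs' => ?_
      obtain ⟨t, ht, t', ht', htt⟩ := hs s' hs'
      exact ⟨t, ht, (hreg n).1 t' ht' t htt⟩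
    refine ⟨mem_mem_UN.2 fun s hs => ?_, fun n => ?_, fun n => ?_⟩
    · obtain ⟨t, ht, A, hA, hA'⟩ := mem_mem_UN.1 hq.1 s (hs.trans hr)
      obtain ⟨t', ht', B, hB, hB'⟩ := mem_mem_UN.1 hq.2 t (ht.trans (hs.trans hr))
      refine ⟨t', ht'.trans ht, meet {A, B} 0, meet_mem hm _ (by
        intro C hC
        simp only [Finset.coe_insert, Finset.coe_singleton, mem_insert_iff,
          mem_singleton_iff] at hC
        rcases hC with rfl | rfl
        · exact hA
        · exact hB) 0, fun q' hq' n hn => ?_⟩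
      rw [mem_AE_iff] at hn
      have h1 : q' ∈ meets (X n) := by
        refine hA' q' (hq'.trans ht') n ?_
        rw [mem_AE_iff]
        filter_upwards [hn] with x hx hx'
        exact (hx hx').2 A (by simp)
      have h2 : q' ∈ meets (Y n) := by
        refine hB' q' hq' n ?_
        rw [mem_AE_iff]
        filter_upwards [hn] with x hx hx'
        exact (hx hx').2 B (by simp)
      intro s' hs'
      exact ⟨s', le_rfl, s', ⟨(reg_meets _).1 _ h1 _ hs', (reg_meets _).1 _ h2 _ hs'⟩, le_rfl⟩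
    · exact (mem_fimp_reg (reg_meets _).1 (reg_meets _)).2 fun s _ hs => (hmeets n s hs).1
    · exact (mem_fimp_reg (reg_meets _).1 (reg_meets _)).2 fun s _ hs => (hmeets n s hs).2
  · intro X Y
    refine (mem_fimp_reg (reg_cover _ _).1 (reg_disj _ _)).2 fun q _ hq => mem_disj.2
      fun r hr => ?_
    obtain ⟨a', ha', E, hE⟩ := decide_seq (φ := fun n => meets (X n)) (fun n => reg_meets _) r.1
    let B : Ev K := ⟨fun n => E n ∪ r.2.1ᶜ, fun n => (hE n).1.union r.2.2.1.compl⟩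
    by_cases hB : B ∈ 𝓤
    · refine ⟨(a', r.2), ⟨ha', le_rfl⟩, Or.inl (mem_of_UN ⟨B, hB, fun q' hq' n hn => ?_⟩)⟩
      have h1 : q'.2 ∈ AE (coinProduct K) (E n) := by
        have h2 : q'.2 ∈ AE (coinProduct K) r.2.1 := le_iff_AE.1 hq'.2
        rw [mem_AE_iff] at hn h2 ⊢
        filter_upwards [hn, h2] with x hx hx2 hx'
        exact (hx hx').resolve_right fun h => h (hx2 hx')
      exact ((hE n).2 q'.1 hq'.1 q'.2).2 h1
    · obtain ⟨L, hL, N, hN⟩ := not_mem hm hB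
      let G : Set (K × ℕ → Bool) := ⋃ n, B.1 n ∩ (meet L N).1 n
      have hG : MeasurableSet G := MeasurableSet.iUnion fun n => (B.2 n).inter ((meet L N).2 n)
      have hpos : coinProduct K (r.2.1 ∩ Gᶜ) ≠ 0 := by
        intro h0
        apply hN
        filter_upwards [measure_eq_zero_iff_ae_notMem.1 h0, hm.prop L hL N] with x hx hx2
        by_cases hxG : x ∈ G
        · obtain ⟨n, hn⟩ := mem_iUnion.1 hxG
          exact ⟨n, hn⟩
        · have h1 : x ∉ r.2.1 := fun h => hx ⟨h, hxG⟩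
          obtain ⟨n, hn, hn'⟩ := hx2
          exact ⟨n, Or.inr h1, hn, hn'⟩
      have hle : (a', restr r.2 Gᶜ hG.compl hpos) ≤ r := ⟨ha', restr_le r.2 Gᶜ hG.compl hpos⟩
      refine ⟨(a', restr r.2 Gᶜ hG.compl hpos), hle,
        Or.inr (mem_of_UN ⟨meet L N, meet_mem hm L hL N, fun q' hq' n hn => ?_⟩)⟩
      refine (reg_meets _).2 q' fun s hs => ?_
      have hsr : s ≤ r := hs.trans (hq'.trans hle)
      obtain ⟨t, ht, ht' | ht'⟩ := mem_disj.1 (hq n) s (hsr.trans hr)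
      · exfalso
        have h1 : t.2 ∈ AE (coinProduct K) (E n) :=
          ((hE n).2 t.1 (ht.1.trans (hs.1.trans hq'.1)) t.2).1 ht'
        have h2 : t.2 ∈ AE (coinProduct K) Gᶜ :=
          down_AE _ _ (restr_mem r.2 Gᶜ hG.compl hpos) _ (ht.2.trans (hs.2.trans hq'.2))
        have h3 : t.2 ∈ AE (coinProduct K) ((meet L N).1 n) :=
          down_AE _ _ hn _ (ht.2.trans hs.2)
        rw [mem_AE_iff] at h1 h2 h3
        apply t.2.2.2
        refine measure_eq_zero_iff_ae_notMem.2 ?_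
        filter_upwards [h1, h2, h3] with x g1 g2 g3 hx
        exact g2 hx (mem_iUnion.2 ⟨n, Or.inl (g1 hx), g3 hx⟩)
      · exact ⟨t, ht, ht'⟩

end Pool.Agent.R583.UP
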